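import Mathlib
import Pool.Agent.S15686

/-! # The gap of the Haldane pseudo-potential Hamiltonian `H(2,N)` closes exponentially fast -/

noncomputable section

namespace Pool.Agent.Results.MP_1f8098_mp.ExponentialGapClosing

open MvPolynomial

variable {N : ℕ}

/-- The passage to the orthonormal centre of mass and relative coordinates of the particles `i`, `j`: replace `z_i` by
`(z_i + z_j)/√2` and `z_j` by `(z_i - z_j)/√2`. Afterwards the exponent of `z_j` is the relative angular momentum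
of the pair. -/
def rel (i j : Fin N) : MvPolynomial (Fin N) ℂ →ₐ[ℂ] MvPolynomial (Fin N) ℂ :=
  aeval fun k => if k = i then C (((Real.sqrt 2 : ℝ) : ℂ)⁻¹) * (X i + X j)
    else if k = j then C (((Real.sqrt 2 : ℝ) : ℂ)⁻¹) * (X i - X j)
    else X k

/-- The inner product of the lowest Landau level (up to a constant factor, in the unit of length with `B = 2`):
the monomials are orthogonal and the monomial `z^α` has squared norm `∏ (α_k)!`. -/
def inner (φ ψ : MvPolynomial (Fin N) ℂ) : ℂ :=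
  φ.support.sum fun α => (starRingEnd ℂ) (coeff α φ) * coeff α ψ *
    ∏ k : Fin N, ((Nat.factorial (α k) : ℕ) : ℂ)

/-- the squared norm of `ψ` -/
def normSq (ψ : MvPolynomial (Fin N) ℂ) : ℝ :=
  ψ.support.sum fun α => ‖coeff α ψ‖ ^ 2 * ∏ k : Fin N, ((Nat.factorial (α k) : ℕ) : ℝ)

/-- The energy `⟨ψ, H(m,N) ψ⟩`: the sum over the pairs `i < j` of the squared norm of the part of `ψ` in which the pair
has relative angular momentum `m`. -/
def energy (m : ℕ) (ψ : MvPolynomial (Fin N) ℂ) : ℝ :=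
  ∑ i : Fin N, ∑ j : Fin N, if i < j then
    ((rel i j ψ).support.filter fun α => α j = m).sum
      (fun α => ‖coeff α (rel i j ψ)‖ ^ 2 * ∏ k : Fin N, ((Nat.factorial (α k) : ℕ) : ℝ))
    else 0

/-- For every `N ≥ 2` there is a nonzero symmetric polynomial `ψ`, homogeneous of degree `N` (total angular momentum `N`,
which is at most `2 N (N-1)`), orthogonal to every symmetric polynomial `φ` (of any degree) with zero energy
`⟨φ, H(2,N) φ⟩ = 0`, and with `⟨ψ, H(2,N) ψ⟩ ≤ (8 N^3 / 2^N) ‖ψ‖^2`. So `σ(N,4) ≤ 8 N^3 / 2^N`. -/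
theorem result (N : ℕ) (hN : 2 ≤ N) :
    ∃ ψ : MvPolynomial (Fin N) ℂ, ψ ≠ 0 ∧ ψ.IsSymmetric ∧ ψ.IsHomogeneous N ∧
      (∀ φ : MvPolynomial (Fin N) ℂ, φ.IsSymmetric → energy 2 φ = 0 → inner φ ψ = 0) ∧
      energy 2 ψ ≤ 8 * (N : ℝ) ^ 3 / 2 ^ N * normSq ψ := by
  have hnb := Pool.Agent.S15686.norm_bound (N := N) hN
  have hf : (0 : ℝ) < (Nat.factorial N : ℝ) := by exact_mod_cast Nat.factorial_pos N
  have hNr : (2 : ℝ) ≤ N := by exact_mod_cast hN
  have hnorm : normSq (Pool.Agent.S15686.psi N) = (Pool.Agent.S15686.psi N).support.sum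
      (fun α => ‖MvPolynomial.coeff α (Pool.Agent.S15686.psi N)‖ ^ 2 *
          ∏ k : Fin N, ((Nat.factorial (α k) : ℕ) : ℝ)) := rfl
  have hpos : (N : ℝ) * (Nat.factorial N : ℝ) / 4 ≤ normSq (Pool.Agent.S15686.psi N) := by
    rw [hnorm]; exact hnb
  refine ⟨Pool.Agent.S15686.psi N, ?_, Pool.Agent.S15686.sym_psi, ?_, ?_, ?_⟩
  · intro h0
    have hz : normSq (Pool.Agent.S15686.psi N) = 0 := by
      rw [h0]; simp [normSq]
    have : (0 : ℝ) < (N : ℝ) * (Nat.factorial N : ℝ) / 4 := by positivity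
    linarith
  · intro α hα
    by_contra hne
    apply hα
    apply Pool.Agent.S15686.coeff_psi_ne
    intro hs
    apply hne
    rw [Finsupp.weight_apply]
    simp only [Pi.one_apply, smul_eq_mul, mul_one]
    rw [Finsupp.sum_fintype _ _ (by simp)]
    exact hs
  · intro φ hφ he
    apply Pool.Agent.S15686.orth (by omega) hφ
    intro i j hij γ hγ hγ2
    have hnn : ∀ a b : Fin N, (0 : ℝ) ≤ (if a < b then
        ((rel a b φ).support.filter fun α => α b = 2).sum
          (fun α => ‖coeff α (rel a b φ)‖ ^ 2 * ∏ k : Fin N, ((Nat.factorial (α k) : ℕ) : ℝ))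
        else 0) := by
      intro a b
      split_ifs
      · exact Finset.sum_nonneg fun α _ => by positivity
      · exact le_refl 0
    unfold energy at he
    have h1 := (Finset.sum_eq_zero_iff_of_nonneg
      (fun a _ => Finset.sum_nonneg fun b _ => hnn a b)).1 he i (Finset.mem_univ _)
    have h2 := (Finset.sum_eq_zero_iff_of_nonneg (fun b _ => hnn i b)).1 h1 j (Finset.mem_univ _)
    rw [if_pos hij] at h2
    have h3 := (Finset.sum_eq_zero_iff_of_nonneg (fun α _ => by positivity)).1 h2 γ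
      (Finset.mem_filter.2 ⟨hγ, hγ2⟩)
    have h4 : ‖coeff γ (rel i j φ)‖ ≠ 0 := norm_ne_zero_iff.2 (mem_support_iff.1 hγ)
    have h5 : (0 : ℝ) < ‖coeff γ (rel i j φ)‖ ^ 2 *
        ∏ k : Fin N, ((Nat.factorial (γ k) : ℕ) : ℝ) := by
      apply mul_pos (by positivity)
      exact Finset.prod_pos fun k _ => by exact_mod_cast Nat.factorial_pos _
    exact absurd h3 (ne_of_gt h5)
  · have hE : ∀ i j : Fin N, (if i < j then
        ((rel i j (Pool.Agent.S15686.psi N)).support.filter fun α => α j = 2).sum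
          (fun α => ‖coeff α (rel i j (Pool.Agent.S15686.psi N))‖ ^ 2 *
            ∏ k : Fin N, ((Nat.factorial (α k) : ℕ) : ℝ))
        else 0) ≤ 2 * (N : ℝ) * (N - 1) * (Nat.factorial N : ℝ) / 2 ^ N := by
      intro i j
      split_ifs with hij
      · exact Pool.Agent.S15686.pair_energy (ne_of_lt hij) hN
      · have h1 : (0 : ℝ) ≤ (N : ℝ) - 1 := by linarith
        positivity
    have hsum := Finset.sum_le_sum (fun i (_ : i ∈ (Finset.univ : Finset (Fin N))) =>
      Finset.sum_le_sum (fun j (_ : j ∈ (Finset.univ : Finset (Fin N))) => hE i j))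
    have h0 : energy 2 (Pool.Agent.S15686.psi N) ≤
        N * (N * (2 * (N : ℝ) * (N - 1) * (Nat.factorial N : ℝ) / 2 ^ N)) := by
      unfold energy
      refine hsum.trans ?_
      simp only [Finset.sum_const, Finset.card_univ, Fintype.card_fin, nsmul_eq_mul]
      exact le_refl _
    have h2 : (0 : ℝ) < 2 ^ N := by positivity
    refine h0.trans ?_
    calc (N : ℝ) * (N * (2 * (N : ℝ) * (N - 1) * (Nat.factorial N : ℝ) / 2 ^ N)) ≤
        8 * (N : ℝ) ^ 3 / 2 ^ N * ((N : ℝ) * (Nat.factorial N : ℝ) / 4) := by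
          have e : 8 * (N : ℝ) ^ 3 / 2 ^ N * ((N : ℝ) * (Nat.factorial N : ℝ) / 4) -
            (N : ℝ) * (N * (2 * (N : ℝ) * (N - 1) * (Nat.factorial N : ℝ) / 2 ^ N)) =
            2 * (N : ℝ) ^ 3 * (Nat.factorial N : ℝ) / 2 ^ N := by
            field_simp
            ring
          have : 0 ≤ 2 * (N : ℝ) ^ 3 * (Nat.factorial N : ℝ) / 2 ^ N := by positivity
          linarith
      _ ≤ 8 * (N : ℝ) ^ 3 / 2 ^ N * normSq (Pool.Agent.S15686.psi N) :=
          mul_le_mul_of_nonneg_left hpos (by positivity)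

end Pool.Agent.Results.MP_1f8098_mp.ExponentialGapClosing
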